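import Mathlib
import Pool.Agent.H932R7.Final2
import Pool.Agent.H248R5.Gen

set_option autoImplicit false

/-!
# The strong Nagata conjecture for curves of bounded multiplicities

Let `w i ≤ m` be arbitrary multiplicities with `∑ w i ≥ m (m + 1) (m + 6 √m + 10)`. Then every curve
(irreducible or not) with multiplicity at least `w i` at the `i`-th of `n` general points of the
complex projective plane, of degree `d`, has `d² > ∑ (w i)²`.
-/

namespace Pool.Agent.Results.MP_b180eb_ag.BoundedMultiplicity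

open Pool.Agent.H248R5

/-- the self-intersection `d² - ∑ (w i)²` of the class `(d; w)` -/
def selfInt {n : ℕ} (d : ℕ) (w : Fin n → ℕ) : ℤ := (d : ℤ) ^ 2 - ∑ i, (w i : ℤ) ^ 2

theorem arith (m d S c : ℤ) (hm : 1 ≤ m) (hd : 0 ≤ d) (hc : 6 * c = (m + 1) * m * (m - 1))
    (h1 : d ^ 2 ≤ m * S) (h2 : m * (m + 1) * (m + 16) ≤ S) : 3 * d + 2 + 4 * c ≤ S := by
  by_contra hcon
  push Not at hcon
  have hS : 3 * S ≤ 9 * d + 6 + 2 * ((m + 1) * m * (m - 1)) := by linarith
  have h3 : 3 * d ^ 2 ≤ m * (9 * d + 6 + 2 * ((m + 1) * m * (m - 1))) := by nlinarith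
  have h4 : d ≤ m ^ 2 + 4 * m := by
    by_contra hlt
    have h5 : m ^ 2 + 4 * m + 1 ≤ d := by omega
    have h6 : m ^ 2 + m + 1 ≤ d - 3 * m := by linarith
    have h7 : (m ^ 2 + 4 * m + 1) * (m ^ 2 + m + 1) ≤ d * (d - 3 * m) :=
      mul_le_mul h5 h6 (by positivity) hd
    have h8 : 0 < m ^ 4 := by positivity
    have h9 : 0 < m ^ 3 := by positivity
    have h10 : 0 < m ^ 2 := by positivity
    nlinarith
  have h9 : 0 < m ^ 3 := by positivity
  have h10 : 0 < m ^ 2 := by positivity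
  nlinarith

theorem result (n m : ℕ) (hm : 0 < m) (w : Fin n → ℕ) (hw : ∀ i, w i ≤ m)
    (hS : (m : ℝ) * (m + 1) * (m + 6 * Real.sqrt m + 10) ≤ ((∑ i, w i : ℕ) : ℝ)) :
    ∃ F : MvPolynomial (Fin n × Fin 2) ℚ, F ≠ 0 ∧
      ∀ P : Fin n → Fin 2 → ℂ,
        MvPolynomial.aeval (fun ij : Fin n × Fin 2 => P ij.1 ij.2) F ≠ 0 →
        ∀ (d : ℕ) (G : MvPolynomial (Fin 3) ℂ), G ≠ 0 → G ∈ forms w P d →
          0 < selfInt d w := by
  classical
  obtain ⟨F, hF, hF'⟩ := H932R7.bounded2 ℂ (w := w) (m := m) (k := m) hm le_rfl hw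
    (fun i hi => absurd (hw i) (by omega))
  refine ⟨F, hF, fun P hP d G hG hGm => ?_⟩
  by_contra hneg
  push Not at hneg
  have hch : ∀ x : ℕ, (2 : ℤ) * ((x + 1).choose 2 : ℕ) = (x : ℤ) ^ 2 + x := by
    intro x
    have h3 : (x + 1).choose 2 * 2 = (x + 1) * x := by
      rw [Nat.choose_two_right]
      simpa using Nat.div_two_mul_two_of_even (Nat.even_mul_pred_self (x + 1))
    have h4 : (((x + 1).choose 2 : ℕ) : ℤ) * 2 = (x + 1) * x := by exact_mod_cast h3
    linarith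
  have hch2 : (2 : ℤ) * ((d + 2).choose 2 : ℕ) = (d : ℤ) ^ 2 + 3 * d + 2 := by
    have := hch (d + 1)
    push_cast at this ⊢
    linarith
  have hA : 2 * ((∑ i, (w i + 1).choose 2 : ℕ) : ℤ) = ∑ i, (w i : ℤ) ^ 2 + ∑ i, (w i : ℤ) := by
    push_cast
    rw [Finset.mul_sum, ← Finset.sum_add_distrib]
    exact Finset.sum_congr rfl (fun i _ => hch (w i))
  have hle : ∑ i, w i ≤ ∑ i, (w i + 1).choose 2 := by
    refine Finset.sum_le_sum fun i _ => ?_
    have h3 := hch (w i)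
    have h4 : (w i : ℤ) ≤ (w i : ℤ) ^ 2 := by
      rcases Nat.eq_zero_or_pos (w i) with h0 | h0
      · rw [h0]; norm_num
      · have : (1 : ℤ) ≤ w i := by exact_mod_cast h0
        nlinarith
    have h5 : (w i : ℤ) ≤ ((w i + 1).choose 2 : ℕ) := by linarith
    exact_mod_cast h5
  have hc : (6 : ℤ) * ((m + 1).choose 3 : ℕ) = ((m : ℤ) + 1) * m * (m - 1) := by
    have h3 := Nat.add_one_mul_choose_eq m 2
    have h4 := hch (m - 1)
    have h5 : m - 1 + 1 = m := by omega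
    rw [h5] at h4
    have h6 : (((m - 1 : ℕ)) : ℤ) = (m : ℤ) - 1 := by
      rw [Nat.cast_sub hm]; norm_num
    rw [h6] at h4
    have h7 : ((m : ℤ) + 1) * (m.choose 2 : ℕ) = ((m + 1).choose 3 : ℕ) * 3 := by
      exact_mod_cast h3
    linear_combination -2 * h7 + ((m : ℤ) + 1) * h4
  have hsq : ∑ i, (w i : ℤ) ^ 2 ≤ m * ∑ i, (w i : ℤ) := by
    rw [Finset.mul_sum]
    refine Finset.sum_le_sum fun i _ => ?_
    have h3 : (w i : ℤ) ≤ m := by exact_mod_cast hw i
    have h4 : (0 : ℤ) ≤ w i := by positivity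
    nlinarith
  have hS16 : (m : ℤ) * (m + 1) * (m + 16) ≤ ∑ i, (w i : ℤ) := by
    have h3 : (1 : ℝ) ≤ Real.sqrt m := by
      rw [Real.one_le_sqrt]
      exact_mod_cast hm
    have h4 : (m : ℝ) * (m + 1) * (m + 16) ≤ ((∑ i, w i : ℕ) : ℝ) := by
      refine le_trans ?_ hS
      exact mul_le_mul_of_nonneg_left (by linarith) (by positivity)
    have h5 : m * (m + 1) * (m + 16) ≤ ∑ i, w i := by exact_mod_cast h4
    exact_mod_cast h5
  rw [selfInt] at hneg
  have hmain := arith m d (∑ i, (w i : ℤ)) ((m + 1).choose 3 : ℕ) (by exact_mod_cast hm)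
    (by positivity) hc (by linarith) hS16
  have hfirst : (d + 2).choose 2 + 2 * (m + 1).choose 3 ≤ ∑ i, (w i + 1).choose 2 := by
    have h3 : (2 : ℤ) * (((d + 2).choose 2 + 2 * (m + 1).choose 3 : ℕ) : ℤ)
        ≤ 2 * ((∑ i, (w i + 1).choose 2 : ℕ) : ℤ) := by
      rw [hA]
      push_cast at hch2 ⊢
      linarith
    have h4 : (((d + 2).choose 2 + 2 * (m + 1).choose 3 : ℕ) : ℤ)
        ≤ ((∑ i, (w i + 1).choose 2 : ℕ) : ℤ) := by linarith
    exact_mod_cast h4
  have h1 : (m : ℝ) * (m + 1) * (m + 6 * Real.sqrt m + 10) ≤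
      ((max ((d + 1) * (d + 2)) (∑ i, (w i + 1).choose 2) : ℕ) : ℝ) := by
    refine hS.trans ?_
    exact_mod_cast hle.trans (le_max_right _ _)
  have hexp := hF' P hP d ⟨h1, Or.inl hfirst⟩
  have hGd : G.IsHomogeneous d := (Submodule.mem_inf.1 hGm).1
  have hGi := (Submodule.mem_inf.1 hGm).2
  rw [Submodule.restrictScalars_mem, Ideal.mem_iInf] at hGi
  have heff := hexp.eff hG hGd hGi
  have hfd : FiniteDimensional ℂ ↥(forms w P d) := by
    have : FiniteDimensional ℂ ↥(MvPolynomial.homogeneousSubmodule (Fin 3) ℂ d) :=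
      Module.Finite.iff_fg.2 (MvPolynomial.homogeneousSubmodule_fg _ _ d)
    exact Submodule.finiteDimensional_of_le (inf_le_left : forms w P d ≤ _)
  have hpos : 0 < Module.finrank ℂ ↥(forms w P d) := by
    rw [Module.finrank_pos_iff_exists_ne_zero]
    exact ⟨⟨G, hGm⟩, fun h0 => hG (congrArg Subtype.val h0)⟩
  unfold forms at hpos
  omega

end Pool.Agent.Results.MP_b180eb_ag.BoundedMultiplicity
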