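import Mathlib
import Pool.Agent.H932R3.Finals
import Pool.Agent.H248R5.Gen

set_option autoImplicit false

/-!
# The strong Nagata conjecture for near-uniform classes

For `n > 9` general points of the complex projective plane and multiplicities `w i ∈ {m, m + 1}`,
`m ≥ 1`, where `m + 1 ≤ n - 6 √n + 11`, or `n` is a perfect square, or the weaker numerical condition
below holds, every curve of class `C = d L - ∑ w i E i` (irreducible or not) has `C² ≥ g - 1` and
`C² > 0`, with exactly two exceptions, `(4; 2², 1⁸)` and `(5; 2⁵, 1⁵)`, both of self-intersection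
`0`, genus `1` and Cremona equivalent to `(3; 1⁹, 0)`.
-/

namespace Pool.Agent.Results.MP_b180eb_ag.NearUniform

open Pool.Agent.H248R5

/-- A divisor class `(d; m 0, …, m (n-1)) = d L - ∑ m i E i` of the plane blown up at `n` points -/
abbrev Cls (n : ℕ) : Type := ℤ × (Fin n → ℤ)

/-- the self-intersection `d² - ∑ (m i)²` of a class -/
def selfInt {n : ℕ} (c : Cls n) : ℤ := c.1 ^ 2 - ∑ i, c.2 i ^ 2

/-- the intersection number of a class with the canonical class `(-3; -1, …, -1)` -/
def canon {n : ℕ} (c : Cls n) : ℤ := -3 * c.1 + ∑ i, c.2 i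

/-- the arithmetic genus `1 + (C² + C · K) / 2` -/
def arithGenus {n : ℕ} (c : Cls n) : ℚ := 1 + ((selfInt c : ℚ) + (canon c : ℚ)) / 2

/-- the quadratic transformation at the points number `i`, `j` and `k` -/
def quad {n : ℕ} (i j k : Fin n) (c : Cls n) : Cls n :=
  (2 * c.1 - c.2 i - c.2 j - c.2 k,
    fun l => if l = i then c.1 - c.2 j - c.2 k else if l = j then c.1 - c.2 i - c.2 k
      else if l = k then c.1 - c.2 i - c.2 j else c.2 l)

/-- one step: a permutation of the multiplicities or a quadratic transformation at three different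
points -/
inductive Step {n : ℕ} : Cls n → Cls n → Prop
  | perm (σ : Equiv.Perm (Fin n)) (c : Cls n) : Step c (c.1, fun l => c.2 (σ l))
  | quad (i j k : Fin n) (hij : i ≠ j) (hik : i ≠ k) (hjk : j ≠ k) (c : Cls n) :
      Step c (quad i j k c)

/-- (CK)-equivalence: the equivalence relation generated by the steps -/
def CKEquiv {n : ℕ} (c c' : Cls n) : Prop := Relation.EqvGen Step c c'

/-- the class `(3; 1⁹, 0^(n-9))` -/
def cubic (n : ℕ) : Cls n := (3, fun i => if (i : ℕ) < 9 then 1 else 0)

/-- the class `(d; w)` -/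
def cls {n : ℕ} (d : ℕ) (w : Fin n → ℕ) : Cls n := ((d : ℤ), fun i => (w i : ℤ))

theorem ck_two (w : Fin 10 → ℤ) (hw : ∀ i, w i = 1 ∨ w i = 2)
    (h : (Finset.univ.filter (fun i => w i = 2)).card = 2) : CKEquiv ((4 : ℤ), w) (cubic 10) := by
  obtain ⟨i, j, hij, hs⟩ := Finset.card_eq_two.1 h
  have hi : w i = 2 := by
    have : i ∈ Finset.univ.filter (fun i => w i = 2) := by rw [hs]; simp
    simpa using this
  have hj : w j = 2 := by
    have : j ∈ Finset.univ.filter (fun i => w i = 2) := by rw [hs]; simp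
    simpa using this
  have hother : ∀ l, l ≠ i → l ≠ j → w l = 1 := by
    intro l h1 h2
    rcases hw l with h3 | h3
    · exact h3
    · exfalso
      have : l ∈ Finset.univ.filter (fun i => w i = 2) := by simp [h3]
      rw [hs] at this
      simp [h1, h2] at this
  obtain ⟨k, hk⟩ : ∃ k, k ∉ ({i, j} : Finset (Fin 10)) := by
    by_contra hcon
    push Not at hcon
    have h1 : (Finset.univ : Finset (Fin 10)) ⊆ {i, j} := fun x _ => hcon x
    have h2 := Finset.card_le_card h1
    have h3 : ({i, j} : Finset (Fin 10)).card ≤ 2 := Finset.card_le_two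
    rw [Finset.card_univ, Fintype.card_fin] at h2
    omega
  have hki : k ≠ i := fun h => hk (by rw [h]; simp)
  have hkj : k ≠ j := fun h => hk (by rw [h]; simp)
  have hkw := hother k hki hkj
  have e1 : quad i j k ((4 : ℤ), w) = ((3 : ℤ), fun l => if l = k then 0 else 1) := by
    unfold quad
    refine Prod.ext ?_ ?_
    · simp only [hi, hj, hkw]; norm_num
    · funext l
      simp only [hi, hj, hkw]
      by_cases h1 : l = i
      · subst h1; simp [hki.symm]
      · by_cases h2 : l = j
        · subst h2; simp [hkj.symm, h1]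
        · by_cases h3 : l = k
          · subst h3; simp [h1, h2]
          · simp [h1, h2, h3, hother l h1 h2]
  have s1 : CKEquiv ((4 : ℤ), w) ((3 : ℤ), fun l => if l = k then 0 else 1) := by
    rw [← e1]
    exact Relation.EqvGen.rel _ _ (Step.quad i j k hij hki.symm hkj.symm _)
  have s2 : CKEquiv ((3 : ℤ), fun l : Fin 10 => if l = k then (0 : ℤ) else 1) (cubic 10) := by
    have e3 : cubic 10 = ((3 : ℤ), fun l : Fin 10 =>
        (fun l : Fin 10 => if l = k then (0 : ℤ) else 1) (Equiv.swap k 9 l)) := by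
      unfold cubic
      refine Prod.ext rfl ?_
      funext l
      simp only
      by_cases h1 : l = 9
      · subst h1
        rw [Equiv.swap_apply_right]
        simp
      · have h2 : (l : ℕ) < 9 := by
          have := l.isLt
          have h3 : (l : ℕ) ≠ 9 := fun h => h1 (Fin.ext h)
          omega
        rw [if_pos h2, if_neg]
        intro h3
        have h4 := congrArg (Equiv.swap k 9) h3
        rw [Equiv.swap_apply_self, Equiv.swap_apply_left] at h4
        exact h1 h4
    rw [e3]
    exact Relation.EqvGen.rel _ _ (Step.perm (Equiv.swap k 9) _)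
  exact Relation.EqvGen.trans _ _ _ s1 s2

theorem ck_five (w : Fin 10 → ℤ) (hw : ∀ i, w i = 1 ∨ w i = 2)
    (h : (Finset.univ.filter (fun i => w i = 2)).card = 5) : CKEquiv ((5 : ℤ), w) (cubic 10) := by
  obtain ⟨t, ht, htc⟩ := Finset.exists_subset_card_eq (s := Finset.univ.filter (fun i => w i = 2))
    (n := 3) (by omega)
  obtain ⟨i, j, k, hij, hik, hjk, rfl⟩ := Finset.card_eq_three.1 htc
  have hi : w i = 2 := by
    have := ht (show i ∈ ({i, j, k} : Finset (Fin 10)) by simp)
    simpa using this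
  have hj : w j = 2 := by
    have := ht (show j ∈ ({i, j, k} : Finset (Fin 10)) by simp)
    simpa using this
  have hk : w k = 2 := by
    have := ht (show k ∈ ({i, j, k} : Finset (Fin 10)) by simp)
    simpa using this
  let w' : Fin 10 → ℤ := fun l => if l = i ∨ l = j ∨ l = k then 1 else w l
  have e1 : quad i j k ((5 : ℤ), w) = ((4 : ℤ), w') := by
    unfold quad
    refine Prod.ext ?_ ?_
    · simp only [hi, hj, hk]; norm_num
    · funext l
      simp only [hi, hj, hk, w']
      by_cases h1 : l = i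
      · simp [h1]
      · by_cases h2 : l = j
        · simp [h2]
        · by_cases h3 : l = k
          · simp [h3]
          · simp [h1, h2, h3]
  have hw' : ∀ l, w' l = 1 ∨ w' l = 2 := by
    intro l
    simp only [w']
    split_ifs
    · exact Or.inl rfl
    · exact hw l
  have hc : (Finset.univ.filter (fun l => w' l = 2)).card = 2 := by
    have e2 : Finset.univ.filter (fun l => w' l = 2)
        = (Finset.univ.filter (fun l => w l = 2)) \ {i, j, k} := by
      ext l
      simp only [w', Finset.mem_filter, Finset.mem_univ, true_and, Finset.mem_sdiff,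
        Finset.mem_insert, Finset.mem_singleton]
      split_ifs with h1
      · simp [h1]
      · simp [h1]
    rw [e2, Finset.card_sdiff_of_subset ht, h, htc]
  refine Relation.EqvGen.trans _ _ _ ?_ (ck_two w' hw' hc)
  rw [← e1]
  exact Relation.EqvGen.rel _ _ (Step.quad i j k hij hik hjk _)

/-- the arithmetic of near-uniform classes -/
theorem arith (n m a d c : ℤ) (hn : 10 ≤ n) (hm : 1 ≤ m) (ha : 0 ≤ a) (hd : 0 ≤ d) (hc : 0 ≤ c)
    (h1 : n * m ^ 2 + (2 * m + 1) * a = d ^ 2 + c)
    (h2 : n * m + a + c ≤ 3 * d) :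
    c = 0 ∧ n = 10 ∧ m = 1 ∧ ((a = 2 ∧ d = 4) ∨ (a = 5 ∧ d = 5)) := by
  have hS : 10 ≤ n * m + a := by nlinarith
  have h3 : (n * m + a + c) ^ 2 ≤ 9 * d ^ 2 := by nlinarith
  have h4 : (n - 9) * m * (n * m + 2 * a) + 9 * c + 2 * c * (n * m + a) + c ^ 2
      ≤ a * (9 - a) := by nlinarith
  have h5 : 10 + 2 * a ≤ n * m + 2 * a := by nlinarith
  have h6 : 1 ≤ (n - 9) * m := by nlinarith
  have h7 : n * m + 2 * a ≤ (n - 9) * m * (n * m + 2 * a) := by nlinarith
  have hc0 : c = 0 := by
    by_contra hne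
    have h8 : 1 ≤ c := by omega
    have h9 : 20 ≤ 2 * c * (n * m + a) := by nlinarith
    nlinarith [sq_nonneg (2 * a - 7)]
  subst hc0
  have ha2 : 2 ≤ a := by
    by_contra hlt
    have : a = 0 ∨ a = 1 := by omega
    rcases this with rfl | rfl <;> nlinarith
  have ha5 : a ≤ 5 := by
    by_contra hlt
    have h8 : 6 ≤ a := by omega
    nlinarith
  have h10 : a * (9 - a) ≤ 20 := by
    have : a = 2 ∨ a = 3 ∨ a = 4 ∨ a = 5 := by omega
    rcases this with rfl | rfl | rfl | rfl <;> norm_num
  have hm1 : m = 1 := by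
    by_contra hne
    have h8 : 2 ≤ m := by omega
    have h9 : 20 ≤ n * m := by nlinarith
    nlinarith
  subst hm1
  have hn1 : n = 10 := by
    by_contra hne
    have h8 : 11 ≤ n := by omega
    nlinarith
  subst hn1
  refine ⟨rfl, rfl, rfl, ?_⟩
  have hd5 : d ≤ 5 := by nlinarith
  have : a = 2 ∨ a = 3 ∨ a = 4 ∨ a = 5 := by omega
  have hd' : d = 0 ∨ d = 1 ∨ d = 2 ∨ d = 3 ∨ d = 4 ∨ d = 5 := by omega
  clear h2 h3 h4 h5 h6 h7 hS
  rcases this with rfl | rfl | rfl | rfl <;> rcases hd' with rfl | rfl | rfl | rfl | rfl | rfl <;>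
    first | (exfalso; revert h1; norm_num; done) | norm_num

/-- **The strong Nagata conjecture for near-uniform classes.** -/
theorem result (n : ℕ) (hn : 9 < n) (m : ℕ) (hm : 0 < m) (w : Fin n → ℕ)
    (hw : ∀ i, w i = m ∨ w i = m + 1)
    (h : ((m + 1 : ℕ) : ℝ) ≤ n - 6 * Real.sqrt n + 11 ∨
      ∃ δ κ : ℕ, 2 ≤ δ ∧ n = δ ^ 2 + 2 * κ ∧
        (κ = 0 ∨ ∑ i, w i * (w i + 1) < δ ^ 2 * (δ ^ 2 + 3) * (δ ^ 2 + 4))) :
    ∃ F : MvPolynomial (Fin n × Fin 2) ℚ, F ≠ 0 ∧
      ∀ P : Fin n → Fin 2 → ℂ,
        MvPolynomial.aeval (fun ij : Fin n × Fin 2 => P ij.1 ij.2) F ≠ 0 →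
        ∀ (d : ℕ) (G : MvPolynomial (Fin 3) ℂ), G ≠ 0 → G ∈ forms w P d →
          arithGenus (cls d w) - 1 ≤ (selfInt (cls d w) : ℚ) ∧
          (0 < selfInt (cls d w) ∨
            (selfInt (cls d w) = 0 ∧ arithGenus (cls d w) = 1 ∧ n = 10 ∧ m = 1 ∧
              (d = 4 ∨ d = 5) ∧ CKEquiv (cls d w) (cubic n))) := by
  classical
  obtain ⟨F, hF, hF'⟩ := H932R3.near_points (L := ℂ) (by omega) hm hw (H932R3.near_cond hn hw h)
  refine ⟨F, hF, fun P hP d G hG hGm => ?_⟩
  have h1 : Module.finrank ℂ ↥(forms w P d) = (d + 2).choose 2 - ∑ i, (w i + 1).choose 2 :=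
    hF' P hP d
  have hfd : FiniteDimensional ℂ ↥(forms w P d) := by
    have : FiniteDimensional ℂ ↥(MvPolynomial.homogeneousSubmodule (Fin 3) ℂ d) :=
      Module.Finite.iff_fg.2 (MvPolynomial.homogeneousSubmodule_fg _ _ d)
    exact Submodule.finiteDimensional_of_le (inf_le_left : forms w P d ≤ _)
  have hpos : 0 < Module.finrank ℂ ↥(forms w P d) := by
    rw [Module.finrank_pos_iff_exists_ne_zero]
    exact ⟨⟨G, hGm⟩, fun h0 => hG (congrArg Subtype.val h0)⟩
  have h2 : ∑ i, (w i + 1).choose 2 + 1 ≤ (d + 2).choose 2 := by omega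
  -- sums
  set a : ℕ := (Finset.univ.filter (fun i => w i = m + 1)).card with ha
  have hwi : ∀ i, (w i : ℤ) = m + if w i = m + 1 then 1 else 0 := by
    intro i
    rcases hw i with h3 | h3
    · rw [if_neg (by omega), h3]; simp
    · rw [if_pos h3, h3]; push_cast; ring
  have hwi2 : ∀ i, (w i : ℤ) ^ 2 = (m : ℤ) ^ 2 + (2 * m + 1) * if w i = m + 1 then 1 else 0 := by
    intro i
    rcases hw i with h3 | h3
    · rw [if_neg (by omega), h3]; simp
    · rw [if_pos h3, h3]; push_cast; ring
  have hS1 : ∑ i, (w i : ℤ) = n * m + a := by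
    rw [Finset.sum_congr rfl (fun i _ => hwi i), Finset.sum_add_distrib, Finset.sum_boole]
    simp [ha]
  have hS2 : ∑ i, (w i : ℤ) ^ 2 = n * (m : ℤ) ^ 2 + (2 * m + 1) * a := by
    rw [Finset.sum_congr rfl (fun i _ => hwi2 i), Finset.sum_add_distrib, ← Finset.mul_sum,
      Finset.sum_boole]
    simp [ha]
  have hch : ∀ x : ℕ, (2 : ℤ) * ((x + 1).choose 2 : ℕ) = (x : ℤ) ^ 2 + x := by
    intro x
    have h3 : (x + 1).choose 2 * 2 = (x + 1) * x := by
      rw [Nat.choose_two_right]
      simpa using Nat.div_two_mul_two_of_even (Nat.even_mul_pred_self (x + 1))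
    have h4 : (((x + 1).choose 2 : ℕ) : ℤ) * 2 = (x + 1) * x := by exact_mod_cast h3
    linarith
  have hch2 : (2 : ℤ) * ((d + 2).choose 2 : ℕ) = (d : ℤ) ^ 2 + 3 * d + 2 := by
    have := hch (d + 1)
    push_cast at this ⊢
    linarith
  have hstar : n * (m : ℤ) ^ 2 + (2 * m + 1) * a + (n * m + a) ≤ (d : ℤ) ^ 2 + 3 * d := by
    have h3 : ((∑ i, (w i + 1).choose 2 + 1 : ℕ) : ℤ) ≤ ((d + 2).choose 2 : ℕ) := by
      exact_mod_cast h2
    have h4 : 2 * ((∑ i, (w i + 1).choose 2 : ℕ) : ℤ) = ∑ i, ((w i : ℤ) ^ 2 + w i) := by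
      push_cast
      rw [Finset.mul_sum]
      exact Finset.sum_congr rfl (fun i _ => hch (w i))
    rw [Finset.sum_add_distrib, hS1, hS2] at h4
    push_cast at h3 h4 ⊢
    linarith
  have hself : selfInt (cls d w) = (d : ℤ) ^ 2 - (n * (m : ℤ) ^ 2 + (2 * m + 1) * a) := by
    rw [selfInt, cls, ← hS2]
  have hcan : canon (cls d w) = -3 * (d : ℤ) + (n * m + a) := by
    rw [canon, cls, ← hS1]
  constructor
  · have h3 : canon (cls d w) ≤ selfInt (cls d w) := by
      rw [hself, hcan]; linarith
    have h4 : (canon (cls d w) : ℚ) ≤ (selfInt (cls d w) : ℚ) := by exact_mod_cast h3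
    rw [arithGenus]
    linarith
  · by_cases hpos2 : 0 < selfInt (cls d w)
    · exact Or.inl hpos2
    · right
      have hn' : (10 : ℤ) ≤ n := by exact_mod_cast hn
      have hm' : (1 : ℤ) ≤ m := by exact_mod_cast hm
      obtain ⟨hc0, hn10, hm1, hcase⟩ := arith n m a d (-selfInt (cls d w)) hn' hm'
        (by positivity) (by positivity) (by omega) (by rw [hself]; ring)
        (by rw [hself]; linarith)
      have hn10' : n = 10 := by exact_mod_cast hn10
      have hm1' : m = 1 := by exact_mod_cast hm1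
      subst hn10'
      subst hm1'
      have hself0 : selfInt (cls d w) = 0 := by omega
      have hw12 : ∀ i, ((w i : ℤ) = 1 ∨ (w i : ℤ) = 2) := by
        intro i
        rcases hw i with h3 | h3 <;> rw [h3] <;> simp
      have hfil : (Finset.univ.filter (fun i => (w i : ℤ) = 2)).card = a := by
        rw [ha]
        congr 1
        ext i
        simp only [Finset.mem_filter, Finset.mem_univ, true_and]
        omega
      rcases hcase with ⟨ha2, hd4⟩ | ⟨ha5, hd5⟩
      · have ha2' : a = 2 := by exact_mod_cast ha2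
        have hd4' : d = 4 := by exact_mod_cast hd4
        subst hd4'
        refine ⟨hself0, ?_, rfl, rfl, Or.inl rfl, ?_⟩
        · rw [arithGenus, hself0, hcan, ha2']; norm_num
        · exact ck_two (fun i => (w i : ℤ)) hw12 (by rw [hfil, ha2'])
      · have ha5' : a = 5 := by exact_mod_cast ha5
        have hd5' : d = 5 := by exact_mod_cast hd5
        subst hd5'
        refine ⟨hself0, ?_, rfl, rfl, Or.inr rfl, ?_⟩
        · rw [arithGenus, hself0, hcan, ha5']; norm_num
        · exact ck_five (fun i => (w i : ℤ)) hw12 (by rw [hfil, ha5'])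

end Pool.Agent.Results.MP_b180eb_ag.NearUniform
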